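import Pool.Agent.helper36.HK.Spec

set_option autoImplicit false

open Finset
open Pool.Agent.FI

noncomputable section

namespace Pool.Agent.HK

theorem UCH_N8mul (z w : ℤ × ℤ) : N8 (mul8 z w) = N8 z * N8 w := by
  unfold N8 mul8; ring

theorem UCH_N8ne (z : ℤ × ℤ) (hz : z.1 % 2 = 1) : N8 z ≠ 0 := by
  intro h
  unfold N8 at h
  have h1 : (z.1 ^ 2 - 8 * z.2 ^ 2) % 2 = 1 := by
    have : z.1 ^ 2 % 2 = 1 := by
      rw [pow_two, Int.mul_emod, hz]; rfl
    omega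
  rw [h] at h1
  norm_num at h1

theorem UCH_oddmul (z w : ℤ × ℤ) (hz : z.1 % 2 = 1) (hw : w.1 % 2 = 1) :
    (mul8 z w).1 % 2 = 1 := by
  unfold mul8
  have h1 : (z.1 * w.1) % 2 = 1 := by
    rw [Int.mul_emod, hz, hw]; rfl
  have h2 : 8 * z.2 * w.2 = 8 * (z.2 * w.2) := by ring
  show (z.1 * w.1 + 8 * z.2 * w.2) % 2 = 1
  rw [h2]
  omega

theorem UCH_ne (z : ℤ × ℤ) (hz : z.1 % 2 = 1) :
    ((z.1 : ℝ) + z.2 * √8 ≠ 0) ∧ ((z.1 : ℝ) - z.2 * √8 ≠ 0) := by
  have h8 : √8 * √8 = (8 : ℝ) := Real.mul_self_sqrt (by norm_num)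
  have h : ((z.1 : ℝ) + z.2 * √8) * ((z.1 : ℝ) - z.2 * √8) = ((N8 z : ℤ) : ℝ) := by
    unfold N8
    push_cast
    have : ((z.1 : ℝ) + z.2 * √8) * ((z.1 : ℝ) - z.2 * √8) = z.1 ^ 2 - z.2 ^ 2 * (√8 * √8) := by ring
    rw [this, h8]; ring
  have hne : ((N8 z : ℤ) : ℝ) ≠ 0 := by exact_mod_cast UCH_N8ne z hz
  constructor
  · intro h0
    apply hne; rw [← h, h0, zero_mul]
  · intro h0
    apply hne; rw [← h, h0, mul_zero]

theorem UCH_yymul (z w : ℤ × ℤ) (hz : z.1 % 2 = 1) (hw : w.1 % 2 = 1) :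
    yy (mul8 z w) = yy z + yy w := by
  obtain ⟨a1, a2⟩ := UCH_ne z hz
  obtain ⟨b1, b2⟩ := UCH_ne w hw
  have h8 : √8 * √8 = (8 : ℝ) := Real.mul_self_sqrt (by norm_num)
  have e1 : (((mul8 z w).1 : ℤ) : ℝ) + ((mul8 z w).2 : ℤ) * √8
      = ((z.1 : ℝ) + z.2 * √8) * ((w.1 : ℝ) + w.2 * √8) := by
    unfold mul8
    push_cast
    have : ((z.1 : ℝ) + z.2 * √8) * ((w.1 : ℝ) + w.2 * √8)
        = z.1 * w.1 + z.2 * w.2 * (√8 * √8) + (z.1 * w.2 + z.2 * w.1) * √8 := by ring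
    rw [this, h8]; ring
  have e2 : (((mul8 z w).1 : ℤ) : ℝ) - ((mul8 z w).2 : ℤ) * √8
      = ((z.1 : ℝ) - z.2 * √8) * ((w.1 : ℝ) - w.2 * √8) := by
    unfold mul8
    push_cast
    have : ((z.1 : ℝ) - z.2 * √8) * ((w.1 : ℝ) - w.2 * √8)
        = z.1 * w.1 + z.2 * w.2 * (√8 * √8) - (z.1 * w.2 + z.2 * w.1) * √8 := by ring
    rw [this, h8]; ring
  unfold yy
  rw [e1, e2, abs_mul, abs_mul, mul_div_mul_comm, Real.log_mul]
  · exact div_ne_zero (abs_ne_zero.mpr a1) (abs_ne_zero.mpr a2)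
  · exact div_ne_zero (abs_ne_zero.mpr b1) (abs_ne_zero.mpr b2)

theorem UCH_sgn (x y z : ℤ) (j : ℕ) (h : (x.natAbs) % 2 = (y.natAbs + z.natAbs) % 2) :
    (-1 : ℂ) ^ (j * x.natAbs) = (-1) ^ (j * y.natAbs) * (-1) ^ (j * z.natAbs) := by
  rw [← pow_add, ← Nat.mul_add, Nat.mul_comm j, Nat.mul_comm j, pow_mul, pow_mul]
  congr 1
  rw [neg_one_pow_eq_pow_mod_two, h, ← neg_one_pow_eq_pow_mod_two]

theorem UCH_par (z w : ℤ × ℤ) (hz : z.1 % 2 = 1) (hw : w.1 % 2 = 1) :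
    ((mul8 z w).2.natAbs) % 2 = (z.2.natAbs + w.2.natAbs) % 2 := by
  have hz' : z.1 = 2 * (z.1 / 2) + 1 := by omega
  have hw' : w.1 = 2 * (w.1 / 2) + 1 := by omega
  have h : (mul8 z w).2 = w.2 + z.2 + 2 * ((z.1 / 2) * w.2 + z.2 * (w.1 / 2)) := by
    unfold mul8
    show z.1 * w.2 + z.2 * w.1 = _
    generalize z.1 / 2 = a at *
    generalize w.1 / 2 = b at *
    rw [hz', hw']; ring
  rw [h]
  generalize (z.1 / 2) * w.2 + z.2 * (w.1 / 2) = c
  omega

theorem UCH_mul (d : ℕ) (ψ : ℤ × ℤ → ℂ) (j i : ℕ) (κ : ℝ) (h : IsRC d ψ) (z w : ℤ × ℤ)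
    (hz : z.1 % 2 = 1) (hw : w.1 % 2 = 1) :
    HC ψ j i κ (mul8 z w) = HC ψ j i κ z * HC ψ j i κ w := by
  unfold HC
  rw [h.1, UCH_sgn _ _ _ j (UCH_par z w hz hw), UCH_N8mul, Int.sign_mul, UCH_yymul z w hz hw]
  have : Complex.exp ((κ : ℂ) * ((yy z + yy w : ℝ) : ℂ) * Complex.I)
      = Complex.exp ((κ : ℂ) * (yy z : ℂ) * Complex.I) *
        Complex.exp ((κ : ℂ) * (yy w : ℂ) * Complex.I) := by
    rw [← Complex.exp_add]
    congr 1
    push_cast; ring
  rw [this]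
  push_cast
  rw [mul_pow]
  ring

theorem UCH_rat (d : ℕ) (ψ : ℤ × ℤ → ℂ) (j i : ℕ) (κ : ℝ) (h : IsRC d ψ) (t : ℤ)
    (ht : t ≠ 0) (hc : IsCoprime t (d : ℤ)) : HC ψ j i κ (t, 0) = 1 := by
  unfold HC
  rw [h.2.2.2.2 t hc]
  have h1 : yy (t, 0) = 0 := by
    unfold yy
    have : (t : ℝ) ≠ 0 := by exact_mod_cast ht
    simp [div_self (abs_ne_zero.mpr this)]
  have h2 : (N8 (t, 0)).sign = 1 := by
    unfold N8
    apply Int.sign_eq_one_of_pos
    have : 0 < t ^ 2 := by positivity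
    simpa using this
  rw [h1, h2]
  simp

theorem UCH_31 (ψ : ℤ × ℤ → ℂ) (j i : ℕ) (κ : ℝ) (hu : UInv ψ j κ) :
    HC ψ j i κ (3, 1) = 1 := by
  unfold UInv at hu
  unfold HC
  have h8 : √8 * √8 = (8 : ℝ) := Real.mul_self_sqrt (by norm_num)
  have hs : 0 ≤ √8 := Real.sqrt_nonneg 8
  have hlt : √8 < 3 := by
    rw [show (3 : ℝ) = √9 by
      rw [show (9 : ℝ) = 3 ^ 2 by norm_num, Real.sqrt_sq (by norm_num)]]
    exact Real.sqrt_lt_sqrt (by norm_num) (by norm_num)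
  have h1 : yy (3, 1) = 2 * Real.log (3 + √8) := by
    unfold yy
    have e : |(((3 : ℤ) : ℝ)) + ((1 : ℤ) : ℝ) * √8| / |(((3 : ℤ) : ℝ)) - ((1 : ℤ) : ℝ) * √8|
        = (3 + √8) ^ 2 := by
      push_cast
      rw [one_mul, abs_of_pos (by linarith), abs_of_pos (by linarith), div_eq_iff (by linarith)]
      nlinarith
    show Real.log (|(((3 : ℤ) : ℝ)) + ((1 : ℤ) : ℝ) * √8| / |(((3 : ℤ) : ℝ)) - ((1 : ℤ) : ℝ) * √8|) = _
    rw [e, Real.log_pow]
    push_cast; ring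
  have h2 : (N8 (3, 1)).sign = 1 := by
    unfold N8; decide
  rw [h1, h2]
  simp only [Int.natAbs_one, mul_one, Int.cast_one, one_pow]
  refine Eq.trans ?_ hu
  push_cast
  rfl

theorem UCH_unit (d : ℕ) (ψ : ℤ × ℤ → ℂ) (j i : ℕ) (κ : ℝ) (h : IsRC d ψ) (hu : UInv ψ j κ) :
    ∀ n : ℕ, ∀ u : ℤ × ℤ, u.2.natAbs = n → N8 u = 1 → HC ψ j i κ u = 1 := by
  have h31 := UCH_31 ψ j i κ hu
  have h10 : HC ψ j i κ (1, 0) = 1 := UCH_rat d ψ j i κ h 1 (by norm_num) isCoprime_one_left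
  have hm10 : HC ψ j i κ (-1, 0) = 1 :=
    UCH_rat d ψ j i κ h (-1) (by norm_num) (isCoprime_one_left.neg_left)
  have h3m : HC ψ j i κ (3, -1) = 1 := by
    have e := UCH_mul d ψ j i κ h (3, 1) (3, -1) (by norm_num) (by norm_num)
    have e2 : mul8 (3, 1) (3, -1) = (1, 0) := by unfold mul8; norm_num
    rw [e2, h10, h31, one_mul] at e
    exact e.symm
  intro n
  induction n using Nat.strong_induction_on with
  | _ n ih =>
    intro u hn hN
    obtain ⟨p, q⟩ := u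
    have hN' : p ^ 2 - 8 * q ^ 2 = 1 := hN
    have hodd : p % 2 = 1 := by
      rcases Int.emod_two_eq_zero_or_one p with h0 | h0
      · exfalso
        have : p = 2 * (p / 2) := by omega
        generalize p / 2 = a at this
        rw [this] at hN'
        have : (4 * a ^ 2 - 8 * q ^ 2) = 1 := by rw [← hN']; ring
        omega
      · exact h0
    rcases eq_or_ne q 0 with hq | hq
    · subst hq
      have : p ^ 2 = 1 := by linarith
      rcases (mul_eq_zero.mp (show (p - 1) * (p + 1) = 0 by nlinarith)) with hp | hp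
      · rw [show p = 1 by linarith]; exact h10
      · rw [show p = -1 by linarith]; exact hm10
    · -- reduce
      have hN2 : ∀ w : ℤ × ℤ, N8 w = 1 → N8 (mul8 (p, q) w) = 1 := by
        intro w hw
        rw [UCH_N8mul, hw, hN]; rfl
      have hqn : n ≠ 0 := by
        rw [← hn]
        exact Int.natAbs_ne_zero.mpr hq
      rcases lt_or_gt_of_ne hq with hq0 | hq0
      · rcases lt_or_ge p 0 with hp0 | hp0
        · -- both negative: multiply with (3,-1)
          have a1 : (-3 * q) ≥ -p := by nlinarith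
          have a2 : -p > -2 * q := by nlinarith
          have e := UCH_mul d ψ j i κ h (p, q) (3, -1) hodd (by norm_num)
          rw [h3m, mul_one] at e
          rw [← e]
          have hq1 : (q : ℤ).natAbs = n := hn
          have hlt : (mul8 (p, q) (3, -1)).2.natAbs < n := by
            have : (mul8 (p, q) (3, -1)).2 = -p + 3 * q := by unfold mul8; ring
            rw [this]; omega
          exact ih _ hlt _ rfl (hN2 _ (by unfold N8; norm_num))
        · have a1 : (-3 * q) ≥ p := by nlinarith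
          have a2 : p > -2 * q := by nlinarith
          have e := UCH_mul d ψ j i κ h (p, q) (3, 1) hodd (by norm_num)
          rw [h31, mul_one] at e
          rw [← e]
          have hq1 : (q : ℤ).natAbs = n := hn
          have hlt : (mul8 (p, q) (3, 1)).2.natAbs < n := by
            have : (mul8 (p, q) (3, 1)).2 = p + 3 * q := by unfold mul8; ring
            rw [this]; omega
          exact ih _ hlt _ rfl (hN2 _ (by unfold N8; norm_num))
      · rcases lt_or_ge p 0 with hp0 | hp0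
        · have a1 : (3 * q) ≥ -p := by nlinarith
          have a2 : -p > 2 * q := by nlinarith
          have e := UCH_mul d ψ j i κ h (p, q) (3, 1) hodd (by norm_num)
          rw [h31, mul_one] at e
          rw [← e]
          have hq1 : (q : ℤ).natAbs = n := hn
          have hlt : (mul8 (p, q) (3, 1)).2.natAbs < n := by
            have : (mul8 (p, q) (3, 1)).2 = p + 3 * q := by unfold mul8; ring
            rw [this]; omega
          exact ih _ hlt _ rfl (hN2 _ (by unfold N8; norm_num))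
        · have a1 : (3 * q) ≥ p := by nlinarith
          have a2 : p > 2 * q := by nlinarith
          have e := UCH_mul d ψ j i κ h (p, q) (3, -1) hodd (by norm_num)
          rw [h3m, mul_one] at e
          rw [← e]
          have hq1 : (q : ℤ).natAbs = n := hn
          have hlt : (mul8 (p, q) (3, -1)).2.natAbs < n := by
            have : (mul8 (p, q) (3, -1)).2 = -p + 3 * q := by unfold mul8; ring
            rw [this]; omega
          exact ih _ hlt _ rfl (hN2 _ (by unfold N8; norm_num))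

theorem UCH_norm (d : ℕ) (ψ : ℤ × ℤ → ℂ) (j i : ℕ) (κ : ℝ) (h : IsRC d ψ) (z : ℤ × ℤ)
    (hz : z.1 % 2 = 1) (hc : Nat.Coprime (nn z) d) : ‖HC ψ j i κ z‖ = 1 := by
  unfold HC
  have h1 : ‖((-1 : ℂ)) ^ (j * z.2.natAbs)‖ = 1 := by simp
  have h2 : ‖(((N8 z).sign : ℤ) : ℂ) ^ i‖ = 1 := by
    rw [norm_pow]
    have : ‖(((N8 z).sign : ℤ) : ℂ)‖ = 1 := by
      rcases lt_or_gt_of_ne (UCH_N8ne z hz) with h0 | h0
      · rw [Int.sign_eq_neg_one_of_neg h0]; simp
      · rw [Int.sign_eq_one_of_pos h0]; simp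
    rw [this, one_pow]
  have h3 : ‖Complex.exp ((κ : ℂ) * (yy z : ℂ) * Complex.I)‖ = 1 := by
    rw [← Complex.ofReal_mul]
    exact Complex.norm_exp_ofReal_mul_I _
  rw [norm_mul, norm_mul, norm_mul, h1, h2, h3, h.2.2.2.1 z hc]
  norm_num

theorem UCH : UCH_stmt := by
  intro d ψ j i κ h hu
  refine ⟨fun z w hz hw => UCH_mul d ψ j i κ h z w hz hw,
    fun u hN => UCH_unit d ψ j i κ h hu _ u rfl hN, ?_,
    fun z hz hc => UCH_norm d ψ j i κ h z hz hc, ?_⟩
  · intro z _ hc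
    unfold HC
    rw [h.2.2.1 z hc]
    simp
  · intro t ht hc
    exact UCH_rat d ψ j i κ h t (by rintro rfl; norm_num at ht) hc

end Pool.Agent.HK
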